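import Pool.Agent.MP_88847a_mp.H41.Metric
import Pool.Agent.MP_88847a_mp.H41.Unif

/-!
Polynomial form of the elliptic Calogero-Moser operator, for all invariants and every number of
particles, with the gauge factor a power of the Jacobian or of the determinant of the metric.
-/

namespace Pool.Agent.Results.MP_88847a_mp.GaugeIff

open Pool.Agent.MP_88847a_mp.H86 Pool.Agent.MP_88847a_mp.H41

theorem result (g₂ g₃ : ℂ) (hΔ : g₂ ^ 3 - 27 * g₃ ^ 2 ≠ 0) :
    (∃ L : PeriodPair, L.g₂ = g₂ ∧ L.g₃ = g₃) ∧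
    ∀ L : PeriodPair, L.g₂ = g₂ → L.g₃ = g₃ → ∀ N : ℕ, 0 < N → ∀ β γ : ℂ,
      (PolyForm L N β (jac L) γ ↔ γ * (γ - 1) = β * (β - 1)) ∧
      (PolyForm L N β (metricDet L) γ ↔ 2 * γ * (2 * γ - 1) = β * (β - 1)) := by
  refine ⟨exists_lattice hΔ, ?_⟩
  rintro L rfl rfl N hN β γ
  exact ⟨main hΔ hN β γ, (polyForm_metric hΔ β γ).trans (main hΔ hN β (2 * γ))⟩

end Pool.Agent.Results.MP_88847a_mp.GaugeIff
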